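import Pool.Agent.T4h64.DP.Bs
import Pool.Agent.Q281.KG.Kurosh

/-!
# The theorem of Kurosh for freely indecomposable subgroups, with torsion
-/

set_option autoImplicit false

namespace Pool.Agent.T4h64.DP

open Pool.Agent.H599R3.RH Monoid

section
variable {G V E : Type} [Group G] [MulAction G V] [MulAction G E] {T : Tree G V E}

theorem step1' (hs : ¬ Splits G) (hc : ¬ InfCyc G) (e : E) (he : ∀ g : G, g • e = e → g = 1)
    (τ : V) (h : G) (h1 : h ≠ 1) (hτ : h • τ = τ) (g : G) : Sim T e (g • τ) τ := by
  obtain ⟨u, hu⟩ := ((bs' (T := T) e he).resolve_left hs).resolve_left hc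
  have hτu : Sim T e τ u := by
    by_contra hcon
    unfold Sim at hcon
    push Not at hcon
    obtain ⟨k, hk⟩ := hcon
    have hk' : ¬ (side T (k • e) τ ↔ side T (k • e) u) := by tauto
    have hpow : ∀ n : ℕ, (h ^ n)⁻¹ • τ = τ := by
      intro n
      have h2 : ∀ n : ℕ, h ^ n • τ = τ := by
        intro n
        induction n with
        | zero => simp
        | succ n ih => rw [pow_succ, mul_smul, hτ, ih]
      rw [inv_smul_eq_iff, h2]
    have vτ : ∀ n : ℕ, side T ((h ^ n * k) • e) τ ↔ side T (k • e) τ := by
      intro n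
      have := side_smul T (h ^ n) (k • e) ((h ^ n)⁻¹ • τ)
      rwa [smul_inv_smul, smul_smul, hpow] at this
    have vu : ∀ n : ℕ, side T ((h ^ n * k) • e) u ↔ side T (k • e) u := by
      intro n
      have := side_smul T (h ^ n) (k • e) ((h ^ n)⁻¹ • u)
      rw [smul_inv_smul, smul_smul] at this
      exact this.trans (hu _ k)
    have hmem : ∀ n : ℕ, (h ^ n * k) • e ∈ sep T τ u := by
      intro n hn
      apply hk'
      rw [← vτ n, ← vu n]
      exact hn
    have hpe : ∀ m n : ℕ, (h ^ m * k) • e = (h ^ n * k) • e → h ^ m = h ^ n := by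
      intro m n hmn
      have h3 : ((h ^ n * k)⁻¹ * (h ^ m * k)) • e = e := by
        rw [mul_smul, inv_smul_eq_iff]; exact hmn
      have := he _ h3
      rw [inv_mul_eq_one] at this
      exact mul_right_cancel this.symm
    -- finite order
    obtain ⟨N, hN0, hN⟩ : ∃ N : ℕ, 0 < N ∧ h ^ N = 1 := by
      have hni : ¬ Function.Injective (fun n : ℕ => (h ^ n * k) • e) := fun hinj =>
        Set.infinite_of_injective_forall_mem hinj hmem (fin_sep T τ u)
      unfold Function.Injective at hni
      push Not at hni
      obtain ⟨m, n, hmn, hne⟩ := hni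
      have h3 := hpe m n hmn
      rcases lt_or_gt_of_ne hne with hl | hl
      · refine ⟨n - m, by omega, ?_⟩
        have : h ^ n = h ^ (n - m) * h ^ m := by rw [← pow_add]; congr 1; omega
        rw [← h3] at this
        exact right_eq_mul.1 this
      · refine ⟨m - n, by omega, ?_⟩
        have : h ^ m = h ^ (m - n) * h ^ n := by rw [← pow_add]; congr 1; omega
        rw [h3] at this
        exact right_eq_mul.1 this
    -- the half trees
    let S : ℕ → V → Prop := fun m v => (side T ((h ^ m * k) • e) v ↔ side T (k • e) u)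
    have hS : ∀ m v, S (m + 1) v ↔ S m (h⁻¹ • v) := by
      intro m v
      have h4 : side T ((h ^ m * k) • e) (h⁻¹ • v) ↔ side T ((h ^ (m + 1) * k) • e) v := by
        rw [side_smul', inv_inv, smul_smul, ← mul_assoc, ← pow_succ']
      show (_ ↔ _) ↔ (_ ↔ _)
      rw [h4]
    have hSN : ∀ v, S N v ↔ S 0 v := by
      intro v
      show (_ ↔ _) ↔ (_ ↔ _)
      rw [hN, pow_zero]
    have hne01 : (h ^ 0 * k) • e ≠ (h ^ 1 * k) • e := by
      intro h4
      have := hpe 0 1 h4
      rw [pow_zero, pow_one] at this
      exact h1 this.symm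
    have q := quad T hne01
    have qτ := q τ
    have qu := q u
    have a0 := vτ 0
    have a1 := vτ 1
    have b0 := vu 0
    have b1 := vu 1
    have sd := side_ne T hne01.symm
    have s10 := side0 T ((h ^ 1 * k) • e)
    have s11 := side1 T ((h ^ 1 * k) • e)
    by_cases hcase : (side T ((h ^ 0 * k) • e) (T.d0 ((h ^ 1 * k) • e)) ↔ side T (k • e) τ)
    · -- `S 0 ⊆ S 1`
      have hb' : side T ((h ^ 1 * k) • e) (T.d0 ((h ^ 0 * k) • e)) ↔ side T (k • e) u := by
        rcases qu with h4 | h4
        · exact absurd (hcase.symm.trans (h4.symm.trans b0)) hk'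
        · exact h4.symm.trans b1
      have hsub : ∀ v, S 0 v → S 1 v := by
        intro v hv
        rcases q v with h4 | h4
        · exact absurd (hcase.symm.trans (h4.symm.trans hv)) hk'
        · exact h4.trans hb'
      obtain ⟨v, hv1, hv0⟩ : ∃ v, S 1 v ∧ ¬ S 0 v := by
        by_cases hb : side T (k • e) u
        · exact ⟨T.d1 ((h ^ 1 * k) • e), ⟨fun _ => hb, fun _ => s11⟩,
            fun h0 => hk' (hcase.symm.trans (sd.symm.trans h0))⟩
        · exact ⟨T.d0 ((h ^ 1 * k) • e), iff_of_false s10 hb,
            fun h0 => hk' (hcase.symm.trans h0)⟩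
      have hall : ∀ m v, S 0 v → S m v := by
        intro m
        induction m with
        | zero => exact fun v hv => hv
        | succ m ih =>
          intro v hv
          rw [hS]
          apply ih
          rw [← hS]
          exact hsub v hv
      apply hv0
      rw [← hSN]
      obtain ⟨M, rfl⟩ : ∃ M, N = M + 1 := ⟨N - 1, by omega⟩
      rw [hS]
      apply hall
      rw [← hS]
      exact hv1
    · -- `S 1 ⊆ S 0`
      have hau : side T ((h ^ 0 * k) • e) (T.d0 ((h ^ 1 * k) • e)) ↔ side T (k • e) u := by
        clear * - hcase hk'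
        tauto
      have hb' : side T ((h ^ 1 * k) • e) (T.d0 ((h ^ 0 * k) • e)) ↔ side T (k • e) τ := by
        rcases qτ with h4 | h4
        · exact absurd (h4.symm.trans a0) hcase
        · exact h4.symm.trans a1
      have hsub : ∀ v, S 1 v → S 0 v := by
        intro v hv
        rcases q v with h4 | h4
        · exact h4.trans hau
        · exact absurd ((hb'.symm.trans h4.symm).trans hv) hk'
      obtain ⟨v, hv1, hv0⟩ : ∃ v, S 0 v ∧ ¬ S 1 v := by
        by_cases hb : side T (k • e) u
        · exact ⟨T.d0 ((h ^ 1 * k) • e), hau, fun h0 => s10 (h0.2 hb)⟩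
        · exact ⟨T.d1 ((h ^ 1 * k) • e), sd.trans hau, fun h0 => hb (h0.1 s11)⟩
      have hall : ∀ m v, S m v → S 0 v := by
        intro m
        induction m with
        | zero => exact fun v hv => hv
        | succ m ih =>
          intro v hv
          rw [hS] at hv
          apply hsub
          rw [hS]
          exact ih _ hv
      apply hv0
      rw [hS]
      rw [← hSN] at hv1
      obtain ⟨M, rfl⟩ : ∃ M, N = M + 1 := ⟨N - 1, by omega⟩
      rw [hS] at hv1
      exact hall _ _ hv1
  exact ((hτu.smul g).trans (hu g)).trans hτu.symm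

end

open Pool.Agent.Q281.KG

variable {A C D : Type} [Group A] [Group C] [Group D]

/-- **Kurosh theorem for indecomposable subgroups of free products** -/
theorem kurosh' (f : A →* Coprod C D) (hf : Function.Injective f)
    (hnt : ∃ a : A, a ≠ 1) (hs : ¬ Splits A) (hc : ¬ InfCyc A) :
    (∃ g, ∀ x, ∃ c : C, f x = g * Coprod.inl c * g⁻¹) ∨
    (∃ g, ∀ x, ∃ d : D, f x = g * Coprod.inr d * g⁻¹) := by
  let iV := actV f
  let iE := actE f
  have hE : ∀ (x : A) (e : Coprod C D), x • e = f x * e := fun _ _ => rfl
  have hVl : ∀ (x : A) (g : Coprod C D), x • (Sum.inl (g : Coprod C D ⧸ LC C D) : Vx C D) =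
    Sum.inl ((f x * g : Coprod C D) : Coprod C D ⧸ LC C D) := fun _ _ => rfl
  have hVr : ∀ (x : A) (g : Coprod C D), x • (Sum.inr (g : Coprod C D ⧸ RD C D) : Vx C D) =
    Sum.inr ((f x * g : Coprod C D) : Coprod C D ⧸ RD C D) := fun _ _ => rfl
  have he : ∀ (e : Coprod C D) (x : A), x • e = e → x = 1 := by
    intro e x h
    apply hf
    rw [hE] at h
    rw [map_one]
    exact mul_eq_right.1 h
  by_cases hfix : ∃ (v : Vx C D) (x : A), x ≠ 1 ∧ x • v = v
  · obtain ⟨v, x, hx1, hx⟩ := hfix
    have hall : ∀ y : A, y • v = v := by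
      intro y
      apply eq_of_unsep (tree f)
      intro e
      have := step1' (T := tree f) hs hc e (he e) v x hx1 hx y 1
      rwa [one_smul] at this
    rcases v with v | v
    · left
      induction v using QuotientGroup.induction_on with
      | H g =>
        refine ⟨g, fun y => ?_⟩
        have h1 := hall y
        rw [hVl] at h1
        have h2 := (QuotientGroup.eq.1 (Sum.inl_injective h1).symm)
        obtain ⟨c, hc⟩ := h2
        exact ⟨c, by rw [hc]; group⟩
    · right
      induction v using QuotientGroup.induction_on with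
      | H g =>
        refine ⟨g, fun y => ?_⟩
        have h1 := hall y
        rw [hVr] at h1
        have h2 := (QuotientGroup.eq.1 (Sum.inr_injective h1).symm)
        obtain ⟨c, hc⟩ := h2
        exact ⟨c, by rw [hc]; group⟩
  · exfalso
    push Not at hfix
    obtain ⟨g0, hg0⟩ := hnt
    rcases free_case' (tree f) (fun v g hg => by
      by_contra h
      exact hfix v g h hg) (Sum.inl ((1 : Coprod C D) : Coprod C D ⧸ LC C D)) g0 hg0 with h | h
    · exact hs h
    · exact hc h

end Pool.Agent.T4h64.DP
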