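import Pool.Agent.H599R3.RH.Bs2

/-!
# Groups acting on trees: the case with torsion

Generalisations of the theorems of `Pool.Agent.H599R3.RH.Bs` and `Bs2` to groups with torsion.
-/

set_option autoImplicit false

namespace Pool.Agent.T4h64.DP

open Pool.Agent.H599R3.RH Monoid

/-- infinite cyclic -/
def InfCyc (G : Type) [Group G] : Prop :=
  ∃ t : G, (∀ n : ℤ, t ^ n = 1 → n = 0) ∧ ∀ g : G, ∃ n : ℤ, t ^ n = g

section pp

variable {G : Type} [Group G] {α : Type} [MulAction G α] {K : Bool → Subgroup G}

/-- ping-pong for reduced words; the sets are `R b`, and `R' b = R b` or `R b` with one more point -/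
theorem neword_pp (f : ∀ b, K b →* G) (R R' : Bool → Set α) (hR : ∀ b, R b ⊆ R' b)
    (hpp : ∀ i j, i ≠ j → ∀ h : K i, h ≠ 1 → ∀ x ∈ R' j, f i h • x ∈ R i) {i j : Bool}
    (w : CoprodI.NeWord (fun b => K b) i j) :
    ∀ k, j ≠ k → ∀ x ∈ R' k, CoprodI.lift f w.prod • x ∈ R i := by
  induction w with
  | singleton x hx =>
    intro k hk y hy
    rw [CoprodI.NeWord.prod_singleton, CoprodI.lift_of]
    exact hpp _ _ hk x hx y hy
  | append w1 hne w2 ih1 ih2 =>
    intro k hk y hy
    rw [CoprodI.NeWord.append_prod, map_mul, mul_smul]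
    exact ih1 _ hne _ (hR _ (ih2 k hk y hy))

end pp

/-- Ping-pong without cardinality condition. -/
theorem fp_of_pingpong' {G : Type} [Group G] {α : Type} [MulAction G α] (A B : Subgroup G)
    (hA : ∃ a ∈ A, a ≠ 1) (hB : ∃ b ∈ B, b ≠ 1) (hgen : A ⊔ B = ⊤) (X Y : α → Prop)
    (x0 : α) (hX : X x0) (hY : ∃ y, Y y) (hd : ∀ x, X x → ¬ Y x)
    (hx0 : ∀ a ∈ A, a ≠ 1 → ∀ y, Y y → a • y ≠ x0)
    (h1 : ∀ a ∈ A, a ≠ 1 → ∀ y, Y y → X (a • y))
    (h2 : ∀ b ∈ B, b ≠ 1 → ∀ x, X x → Y (b • x)) : Splits G := by
  classical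
  let K : Bool → Subgroup G := fun b => if b then A else B
  let f : ∀ b, K b →* G := fun b => (K b).subtype
  let R : Bool → Set α := fun b =>
    match b with
    | true => {x | ∃ a ∈ A, a ≠ 1 ∧ ∃ y, Y y ∧ a • y = x}
    | false => {x | Y x}
  let R' : Bool → Set α := fun b =>
    match b with
    | true => {x | x ∈ R true ∨ x = x0}
    | false => {x | Y x}
  have hR : ∀ b, R b ⊆ R' b := by
    intro b
    cases b
    · exact fun x hx => hx
    · exact fun x hx => Or.inl hx
  have hRX : ∀ x, x ∈ R' true → X x := by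
    rintro x (⟨a, ha, ha1, y, hy, rfl⟩ | rfl)
    · exact h1 a ha ha1 y hy
    · exact hX
  have hpp : ∀ i j, i ≠ j → ∀ h : K i, h ≠ 1 → ∀ x ∈ R' j, f i h • x ∈ R i := by
    intro i j hij h hh x hx
    cases i <;> cases j
    · exact absurd rfl hij
    · exact h2 h.1 h.2 (fun h0 => hh (Subtype.ext h0)) x (hRX x hx)
    · exact ⟨h.1, h.2, fun h0 => hh (Subtype.ext h0), x, hx, rfl⟩
    · exact absurd rfl hij
  have hx0R : x0 ∉ R true := by
    rintro ⟨a, ha, ha1, y, hy, h⟩
    exact hx0 a ha ha1 y hy h
  have hx0R' : x0 ∈ R' true := Or.inr rfl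
  obtain ⟨y0, hy0⟩ := hY
  have key : ∀ {i j : Bool} (w : CoprodI.NeWord (fun b => K b) i j),
      CoprodI.lift f w.prod ≠ 1 := by
    intro i j w hw
    cases i <;> cases j
    · -- B .. B
      have h := neword_pp f R R' hR hpp w true (by simp) x0 hx0R'
      rw [hw, one_smul] at h
      exact hd _ hX h
    · -- B .. A
      have h := neword_pp f R R' hR hpp w.inv true (by simp) x0 hx0R'
      rw [CoprodI.NeWord.inv_prod, map_inv, hw, inv_one, one_smul] at h
      exact hx0R h
    · -- A .. B
      have h := neword_pp f R R' hR hpp w true (by simp) x0 hx0R'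
      rw [hw, one_smul] at h
      exact hx0R h
    · -- A .. A
      have h := neword_pp f R R' hR hpp w false (by simp) y0 hy0
      rw [hw, one_smul] at h
      exact hd _ (hRX _ (Or.inl h)) hy0
  have hinj : Function.Injective (CoprodI.lift f) := by
    rw [injective_iff_map_eq_one]
    intro z hz
    obtain ⟨w, rfl⟩ := (CoprodI.Word.equiv (M := fun b => K b)).symm.surjective z
    by_cases hw : w = CoprodI.Word.empty
    · rw [hw]
      exact CoprodI.Word.prod_empty
    · obtain ⟨i, j, w', hw'⟩ := CoprodI.NeWord.of_word w hw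
      exfalso
      apply key w'
      have : w'.prod = (CoprodI.Word.equiv (M := fun b => K b)).symm w := by
        rw [CoprodI.NeWord.prod, hw']
        rfl
      rw [this]
      exact hz
  let F : Monoid.Coprod A B →* G := Monoid.Coprod.lift A.subtype B.subtype
  let j : Monoid.Coprod A B →* Monoid.CoprodI (fun b => K b) :=
    Monoid.Coprod.lift (Monoid.CoprodI.of (M := fun b => K b) (i := true))
      (Monoid.CoprodI.of (M := fun b => K b) (i := false))
  let k : Monoid.CoprodI (fun b => K b) →* Monoid.Coprod A B :=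
    Monoid.CoprodI.lift (fun b => match b with
      | true => Monoid.Coprod.inl
      | false => Monoid.Coprod.inr)
  have hkj : k.comp j = MonoidHom.id _ := by
    apply Monoid.Coprod.hom_ext
    · ext x; simp [k, j]
    · ext x; simp [k, j]
  have hF : F = (Monoid.CoprodI.lift f).comp j := by
    apply Monoid.Coprod.hom_ext
    · ext x; simp [F, j, f]
    · ext x; simp [F, j, f]
  have hFi : Function.Injective F := by
    intro x y hxy
    rw [hF] at hxy
    have h3 : j x = j y := hinj hxy
    have h4 := congrArg k h3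
    have h5 : ∀ z, k (j z) = z := fun z => DFunLike.congr_fun hkj z
    rwa [h5, h5] at h4
  have hFs : Function.Surjective F := by
    rw [← MonoidHom.range_eq_top, eq_top_iff, ← hgen]
    apply sup_le
    · intro a ha
      exact ⟨Monoid.Coprod.inl ⟨a, ha⟩, by simp [F]⟩
    · intro b hb
      exact ⟨Monoid.Coprod.inr ⟨b, hb⟩, by simp [F]⟩
  refine ⟨A, B, inferInstance, inferInstance, ?_, ?_,
    ⟨(MulEquiv.ofBijective F ⟨hFi, hFs⟩).symm⟩⟩
  · obtain ⟨a, ha, ha1⟩ := hA
    exact ⟨⟨a, ha⟩, 1, fun h => ha1 (congrArg Subtype.val h)⟩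
  · obtain ⟨a, ha, ha1⟩ := hB
    exact ⟨⟨a, ha⟩, 1, fun h => ha1 (congrArg Subtype.val h)⟩

section
variable {G V E : Type} [Group G] [MulAction G V] [MulAction G E] {T : Tree G V E}

theorem bs_amalgam' (e : E)
    (he : ∀ g : G, g • e = e → g = 1) (hc : ∀ t : G, ¬ Sim T e (t • T.d0 e) (T.d1 e)) :
    Splits G ∨ ∃ u, ∀ g : G, Sim T e (g • u) u := by
  have hgen : fixCl T e (T.d0 e) ⊔ fixCl T e (T.d1 e) = ⊤ := by
    set Γ := fixCl T e (T.d0 e) ⊔ fixCl T e (T.d1 e) with hΓ
    have hA : fixCl T e (T.d0 e) ≤ Γ := le_sup_left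
    have hB : fixCl T e (T.d1 e) ≤ Γ := le_sup_right
    have key0 : ∀ k : G, (∃ γ ∈ Γ, Sim T e (k • T.d0 e) (γ • T.d0 e) ∨
        Sim T e (k • T.d0 e) (γ • T.d1 e)) → k ∈ Γ := by
      rintro k ⟨γ, hγ, h | h⟩
      · have h2 := h.smul γ⁻¹
        rw [inv_smul_smul, smul_smul] at h2
        have := Γ.mul_mem hγ (hA h2)
        rwa [mul_inv_cancel_left] at this
      · have h2 := h.smul γ⁻¹
        rw [inv_smul_smul, smul_smul] at h2
        exact absurd h2 (hc _)
    have key1 : ∀ k : G, (∃ γ ∈ Γ, Sim T e (k • T.d1 e) (γ • T.d0 e) ∨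
        Sim T e (k • T.d1 e) (γ • T.d1 e)) → k ∈ Γ := by
      rintro k ⟨γ, hγ, h | h⟩
      · have h2 := (h.smul k⁻¹).symm
        rw [inv_smul_smul, smul_smul] at h2
        exact absurd h2 (hc _)
      · have h2 := h.smul γ⁻¹
        rw [inv_smul_smul, smul_smul] at h2
        have := Γ.mul_mem hγ (hB h2)
        rwa [mul_inv_cancel_left] at this
    have hall : ∀ v, ∃ γ ∈ Γ, Sim T e v (γ • T.d0 e) ∨ Sim T e v (γ • T.d1 e) := by
      intro v
      apply T.all (Q := fun v => ∃ γ ∈ Γ, Sim T e v (γ • T.d0 e) ∨ Sim T e v (γ • T.d1 e))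
        (u := T.d0 e)
      · intro e0
        by_cases h0 : ∃ k : G, k • e = e0
        · obtain ⟨k, rfl⟩ := h0
          rw [T.s0, T.s1]
          constructor
          · intro h
            exact ⟨k, key1 k h, Or.inl (Sim.refl _ _)⟩
          · intro h
            exact ⟨k, key0 k h, Or.inr (Sim.refl _ _)⟩
        · push Not at h0
          have h1 := sim_of_not (T := T) h0
          constructor
          · rintro ⟨γ, hγ, h⟩
            exact ⟨γ, hγ, h.imp (fun h => h1.symm.trans h) (fun h => h1.symm.trans h)⟩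
          · rintro ⟨γ, hγ, h⟩
            exact ⟨γ, hγ, h.imp (fun h => h1.trans h) (fun h => h1.trans h)⟩
      · exact ⟨1, Γ.one_mem, Or.inl (by rw [one_smul]; exact Sim.refl _ _)⟩
    rw [eq_top_iff]
    intro g _
    exact key0 g (hall _)
  by_cases hA : ∃ a ∈ fixCl T e (T.d0 e), a ≠ 1
  · by_cases hB : ∃ a ∈ fixCl T e (T.d1 e), a ≠ 1
    · left
      refine fp_of_pingpong' _ _ hA hB hgen (fun v => ¬ side T e v) (fun v => side T e v)
        (T.d0 e) (side0 T e) ⟨_, side1 T e⟩ (fun x h => h) ?_ ?_ ?_
      · rintro a ha ha1 y hy h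
        have h1 : y = a⁻¹ • T.d0 e := by rw [← h, inv_smul_smul]
        have h2 := (mem_fixCl.1 (inv_mem ha)) 1
        rw [one_smul, ← h1] at h2
        exact side0 T e (h2.1 hy)
      · intro a ha ha1 y hy
        have hne : a • e ≠ e := fun h => ha1 (he a h)
        have h1 := quad T hne (a • y)
        rw [side_smul] at h1
        have h2 : ¬ side T (a • e) (T.d0 e) := by
          rw [← ha a, side_smul]
          exact side0 T e
        have h3 : ¬ side T e (T.d0 (a • e)) := by
          rw [T.s0]
          have := ha 1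
          rw [one_smul] at this
          rw [this]
          exact side0 T e
        tauto
      · intro a ha ha1 y hy
        have hne : a • e ≠ e := fun h => ha1 (he a h)
        have h1 := quad T hne (a • y)
        rw [side_smul] at h1
        have h2 : side T (a • e) (T.d0 e) := by
          rw [← side_ne T hne.symm, ← ha a, side_smul]
          exact side1 T e
        have h3 : side T e (T.d0 (a • e)) := by
          rw [← side_ne T hne, T.s1]
          have := ha 1
          rw [one_smul] at this
          rw [this]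
          exact side1 T e
        tauto
    · right
      push Not at hB
      refine ⟨T.d0 e, ?_⟩
      have : fixCl T e (T.d1 e) = ⊥ := by
        rw [eq_bot_iff]
        intro a ha
        exact hB a ha
      rw [this, sup_bot_eq] at hgen
      intro g
      rw [← mem_fixCl, hgen]
      trivial
  · right
    push Not at hA
    refine ⟨T.d1 e, ?_⟩
    have : fixCl T e (T.d0 e) = ⊥ := by
      rw [eq_bot_iff]
      intro a ha
      exact hA a ha
    rw [this, bot_sup_eq] at hgen
    intro g
    rw [← mem_fixCl, hgen]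
    trivial

theorem bs_hnn' (e : E)
    (he : ∀ g : G, g • e = e → g = 1) (t : G) (ht : Sim T e (t • T.d0 e) (T.d1 e)) :
    Splits G ∨ InfCyc G := by
  have hd01 : ¬ Sim T e (T.d0 e) (T.d1 e) := by
    have := not_sim (T := T) e 1
    simpa using this
  have ht' : Sim T e (t⁻¹ • T.d1 e) (T.d0 e) := by
    have := (ht.smul t⁻¹).symm
    rwa [inv_smul_smul] at this
  have htA : t ∉ fixCl T e (T.d0 e) := by
    intro h
    exact hd01 ((mem_fixCl.1 h).symm.trans ht)
  have ht1 : t ≠ 1 := by
    intro h
    rw [h, one_smul] at ht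
    exact hd01 ht
  have hgen : fixCl T e (T.d0 e) ⊔ Subgroup.zpowers t = ⊤ := by
    set Γ := fixCl T e (T.d0 e) ⊔ Subgroup.zpowers t with hΓ
    have hA : fixCl T e (T.d0 e) ≤ Γ := le_sup_left
    have hB : t ∈ Γ := (le_sup_right : Subgroup.zpowers t ≤ Γ) (Subgroup.mem_zpowers t)
    have key0 : ∀ k : G, (∃ γ ∈ Γ, Sim T e (k • T.d0 e) (γ • T.d0 e)) → k ∈ Γ := by
      rintro k ⟨γ, hγ, h⟩
      have h2 := h.smul γ⁻¹
      rw [inv_smul_smul, smul_smul] at h2
      have := Γ.mul_mem hγ (hA h2)
      rwa [mul_inv_cancel_left] at this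
    have key1 : ∀ k : G, (∃ γ ∈ Γ, Sim T e (k • T.d1 e) (γ • T.d0 e)) → k ∈ Γ := by
      rintro k ⟨γ, hγ, h⟩
      have h2 : Sim T e ((k * t) • T.d0 e) (γ • T.d0 e) := by
        rw [mul_smul]
        exact (ht.smul k).trans h
      have := Γ.mul_mem (key0 _ ⟨γ, hγ, h2⟩) (Γ.inv_mem hB)
      rwa [mul_inv_cancel_right] at this
    have hall : ∀ v, ∃ γ ∈ Γ, Sim T e v (γ • T.d0 e) := by
      intro v
      apply T.all (Q := fun v => ∃ γ ∈ Γ, Sim T e v (γ • T.d0 e)) (u := T.d0 e)
      · intro e0
        by_cases h0 : ∃ k : G, k • e = e0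
        · obtain ⟨k, rfl⟩ := h0
          rw [T.s0, T.s1]
          constructor
          · intro h
            exact ⟨k, key1 k h, Sim.refl _ _⟩
          · intro h
            refine ⟨k * t, Γ.mul_mem (key0 k h) hB, ?_⟩
            rw [mul_smul]
            exact (ht.smul k).symm
        · push Not at h0
          have h1 := sim_of_not (T := T) h0
          constructor
          · rintro ⟨γ, hγ, h⟩
            exact ⟨γ, hγ, h1.symm.trans h⟩
          · rintro ⟨γ, hγ, h⟩
            exact ⟨γ, hγ, h1.trans h⟩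
      · exact ⟨1, Γ.one_mem, by rw [one_smul]; exact Sim.refl _ _⟩
    rw [eq_top_iff]
    intro g _
    exact key0 g (hall _)
  have hne : t • e ≠ e := fun h => ht1 (he t h)
  have nest : ∀ v, side T (t • e) v → side T e v := by
    intro v hv
    have h1 := quad T hne v
    have h2 : ¬ side T (t • e) (T.d0 e) := by
      rw [← side_ne T hne.symm, ← ht t, side_smul]
      exact side0 T e
    have h3 : side T e (T.d0 (t • e)) := by
      rw [T.s0]
      have := ht 1
      rw [one_smul] at this
      rw [this]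
      exact side1 T e
    tauto
  have nest' : ∀ v, side T e v → side T (t⁻¹ • e) v := by
    intro v hv
    rw [← side_smul']
    apply nest
    rw [side_smul]
    exact hv
  -- the order of `t` is infinite
  have hpow : ∀ m : ℕ, side T e ((t ^ (m + 1)) • T.d0 e) := by
    intro m
    induction m with
    | zero =>
      rw [zero_add, pow_one]
      have := ht 1
      rw [one_smul] at this
      exact this.2 (side1 T e)
    | succ m ih =>
      rw [pow_succ', mul_smul, side_smul']
      exact nest' _ ih
  have hinfN : ∀ m : ℕ, t ^ (m + 1) ≠ 1 := by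
    intro m h
    have := hpow m
    rw [h, one_smul] at this
    exact side0 T e this
  have hinf : ∀ n : ℤ, t ^ n = 1 → n = 0 := by
    intro n hn
    by_contra hn0
    obtain ⟨m, hm⟩ : ∃ m : ℕ, n.natAbs = m + 1 :=
      ⟨n.natAbs - 1, by have := Int.natAbs_pos.2 hn0; omega⟩
    apply hinfN m
    rw [← hm]
    exact pow_natAbs_eq_one.2 hn
  by_cases hA : ∃ a ∈ fixCl T e (T.d0 e), a ≠ 1
  · left
    have hd0X : side T (t⁻¹ • e) (T.d0 e) := by
      rw [← ht' t⁻¹, side_smul]
      exact side1 T e
    refine fp_of_pingpong' _ _ hA ⟨t, Subgroup.mem_zpowers t, ht1⟩ hgen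
      (fun v => ¬ side T e v ∧ side T (t⁻¹ • e) v) (fun v => side T e v ∨ ¬ side T (t⁻¹ • e) v)
      (T.d0 e) ⟨side0 T e, hd0X⟩ ⟨T.d1 e, Or.inl (side1 T e)⟩ (by intro x h; tauto) ?_ ?_ ?_
    · rintro a ha ha1 y hy h
      have h1 : y = a⁻¹ • T.d0 e := by rw [← h, inv_smul_smul]
      have h2 := (mem_fixCl.1 (inv_mem ha)) 1
      have h3 := (mem_fixCl.1 (inv_mem ha)) t⁻¹
      rw [one_smul, ← h1] at h2
      rw [← h1] at h3
      rcases hy with hy | hy
      · exact side0 T e (h2.1 hy)
      · exact hy (h3.2 hd0X)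
    · intro a ha ha1 y hy
      have hi : ∀ b : G, b ∈ fixCl T e (T.d0 e) → b ≠ t ∧ b * t ≠ 1 := by
        intro b hb
        refine ⟨fun h => htA (h ▸ hb), fun h => htA ?_⟩
        rw [← eq_inv_iff_mul_eq_one] at h
        rw [h] at hb
        have := inv_mem hb
        rwa [inv_inv] at this
      -- values at `d0 e`
      have v1 : ∀ k b : G, b ∈ fixCl T e (T.d0 e) →
          (side T (k • e) (b • T.d0 e) ↔ side T (k • e) (T.d0 e)) := fun k b hb => hb k
      have s00 : ¬ side T e (T.d0 e) := side0 T e
      have s0t : side T (t⁻¹ • e) (T.d0 e) := by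
        rw [← ht' t⁻¹, side_smul]
        exact side1 T e
      have sa0 : ¬ side T (a • e) (T.d0 e) := by
        rw [← ha a, side_smul]; exact side0 T e
      have sat : side T ((a * t⁻¹) • e) (T.d0 e) := by
        rw [← ha (a * t⁻¹), mul_smul, side_smul]
        exact s0t
      -- distinctness
      have n1 : a • e ≠ e := fun h => ha1 (he a h)
      have n2 : a • e ≠ t⁻¹ • e := by
        intro h
        have h2 : (t * a) • e = e := by rw [mul_smul, h, smul_inv_smul]
        have h3 := he _ h2
        have h4 : a * t = 1 := by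
          rw [mul_eq_one_iff_eq_inv] at h3
          rw [h3]; simp
        exact (hi a ha).2 h4
      have n3 : (a * t⁻¹) • e ≠ e := by
        intro h
        have h3 := he _ h
        rw [mul_inv_eq_one] at h3
        exact (hi a ha).1 h3
      have n4 : (a * t⁻¹) • e ≠ t⁻¹ • e := by
        intro h
        have h2 : (t * (a * t⁻¹)) • e = e := by rw [mul_smul, h, smul_inv_smul]
        have h3 := he _ h2
        apply ha1
        have : a = t⁻¹ * (t * (a * t⁻¹)) * t := by group
        rw [this, h3]; group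
      -- `d0` of the edges
      have c1 : ∀ k : G, side T (k • e) (T.d0 (a • e)) ↔ side T (k • e) (T.d0 e) := by
        intro k; rw [T.s0]; exact ha k
      have c2 : ∀ k : G, k • e ≠ t⁻¹ • e →
          (side T (k • e) (T.d0 (t⁻¹ • e)) ↔ side T (k • e) (T.d0 e)) := by
        intro k hk
        rw [← side_ne T hk.symm, T.s1]
        exact ht' k
      have c3 : ∀ k : G, k • e ≠ (a * t⁻¹) • e →
          (side T (k • e) (T.d0 ((a * t⁻¹) • e)) ↔ side T (k • e) (T.d0 e)) := by
        intro k hk
        rw [← side_ne T hk.symm, T.s1, mul_smul]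
        exact ((ht'.smul a).trans ha) k
      have c1' := c1 1
      have c1t := c1 t⁻¹
      have c2a := c2 a n2
      have c2t := c2 (a * t⁻¹) n4
      have c31 := c3 1 (by rw [one_smul]; exact n3.symm)
      have c3t := c3 t⁻¹ n4.symm
      rw [one_smul] at c1' c31
      have q1 := (quad T n1 (a • y)).imp (fun h hp => sa0 (h.1 hp))
        (fun h hp => s00 (c1'.1 (h.1 hp)))
      have q2 := (quad T n2 (a • y)).imp (fun h hp => sa0 (c2a.1 (h.1 hp)))
        (fun h => h.2 (c1t.2 s0t))
      have q3 := (quad T n3 (a • y)).imp (fun h => h.2 sat)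
        (fun h hp => s00 (c31.1 (h.1 hp)))
      have q4 := (quad T n4 (a • y)).imp (fun h => h.2 (c2t.2 sat))
        (fun h => h.2 (c3t.2 s0t))
      clear c2t c31 c3t c1' c1t c2a c1 c2 c3 n1 n2 n3 n4 sat sa0 s0t s00 v1 hi nest nest'
      have e1 : side T (a • e) (a • y) ↔ side T e y := side_smul T a e y
      have e2 : side T ((a * t⁻¹) • e) (a • y) ↔ side T (t⁻¹ • e) y := by
        rw [mul_smul]; exact side_smul T a _ y
      rcases hy with hy | hy
      · rw [← e1] at hy
        exact ⟨fun h => q1.elim (fun h' => h' hy) (fun h' => h' h),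
          q2.elim (fun h' => absurd hy h') id⟩
      · rw [← e2] at hy
        exact ⟨fun h => q3.elim hy (fun h' => h' h), q4.elim (fun h' => absurd h' hy) id⟩
    · rintro b ⟨n, rfl⟩ hb1 x ⟨hx1, hx2⟩
      beta_reduce at hb1 ⊢
      rcases n with n | n
      · -- nonnegative
        rw [Int.ofNat_eq_natCast, zpow_natCast] at hb1 ⊢
        obtain ⟨m, rfl⟩ : ∃ m, n = m + 1 := by
          cases n with
          | zero => exact absurd (pow_zero t) hb1
          | succ m => exact ⟨m, rfl⟩
        left
        clear hb1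
        induction m with
        | zero =>
          rw [zero_add, pow_one, side_smul']
          exact hx2
        | succ m ih =>
          rw [pow_succ', mul_smul, side_smul']
          exact nest' _ ih
      · right
        rw [zpow_negSucc, ← inv_pow]
        clear hb1
        induction n with
        | zero =>
          rw [zero_add, pow_one, side_smul]
          exact hx1
        | succ m ih =>
          rw [pow_succ', mul_smul, side_smul]
          exact fun h => ih (nest' _ h)
  · right
    push Not at hA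
    have : fixCl T e (T.d0 e) = ⊥ := by
      rw [eq_bot_iff]
      intro a ha
      exact hA a ha
    rw [this, bot_sup_eq] at hgen
    refine ⟨t, hinf, fun g => ?_⟩
    have h : g ∈ Subgroup.zpowers t := by rw [hgen]; trivial
    exact h

/-- **Bass-Serre theory** for an edge with trivial stabilizer. -/
theorem bs' (e : E) (he : ∀ g : G, g • e = e → g = 1) :
    Splits G ∨ InfCyc G ∨ ∃ u, ∀ g : G, Sim T e (g • u) u := by
  by_cases hc : ∃ t : G, Sim T e (t • T.d0 e) (T.d1 e)
  · obtain ⟨t, ht⟩ := hc
    rcases bs_hnn' e he t ht with h | h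
    · exact Or.inl h
    · exact Or.inr (Or.inl h)
  · push Not at hc
    rcases bs_amalgam' e he hc with h | h
    · exact Or.inl h
    · exact Or.inr (Or.inr h)

/-- points of a convex class and separating edges -/
theorem free_case' (T : Tree G V E)
    (hf : ∀ (v : V) (g : G), g • v = v → g = 1) (v0 : V) (g0 : G) (hg0 : g0 ≠ 1) :
    Splits G ∨ InfCyc G := by
  classical
  by_contra hcon
  push Not at hcon
  obtain ⟨hs, hc⟩ := hcon
  -- minimal pair
  have hex : ∃ n, ∃ (v : V) (g : G), g ≠ 1 ∧ (sep T v (g • v)).ncard = n :=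
    ⟨_, v0, g0, hg0, rfl⟩
  obtain ⟨v, g, hg1, hn⟩ := Nat.find_spec hex
  have hmin : ∀ (v' : V) (g' : G), g' ≠ 1 → (sep T v (g • v)).ncard ≤ (sep T v' (g' • v')).ncard := by
    intro v' g' hg'
    rw [hn]
    exact Nat.find_min' hex ⟨v', g', hg', rfl⟩
  have hne : ∃ e, ¬ (side T e v ↔ side T e (g • v)) := by
    by_contra h
    push Not at h
    have := eq_of_unsep T (u := v) (v := g • v) (by intro e; have := h e; tauto)
    exact hg1 (hf v g this.symm)
  obtain ⟨e, he⟩ := hne
  have hefree : ∀ k : G, k • e = e → k = 1 := by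
    intro k hk
    apply hf (T.d0 e)
    rw [← T.s0, hk]
  obtain ⟨u, hu⟩ := ((bs' (T := T) e hefree).resolve_left hs).resolve_left hc
  -- nearest point of the class of `u`
  have hex2 : ∃ n, ∃ y : V, Sim T e y u ∧ (sep T v y).ncard = n := ⟨_, u, Sim.refl _ _, rfl⟩
  obtain ⟨y, hy, hny⟩ := Nat.find_spec hex2
  have hymin : ∀ y', Sim T e y' u → (sep T v y).ncard ≤ (sep T v y').ncard := by
    intro y' hy'
    rw [hny]
    exact Nat.find_min' hex2 ⟨y', hy', rfl⟩
  have claimN : ∀ f ∈ sep T v y, ∀ k, Sim T e k u → (side T f k ↔ side T f y) := by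
    intro f hfs k hk
    by_contra hky
    -- endpoint of `f` on the side of `v`
    have hfO : ∀ k' : G, k' • e ≠ f := by
      rintro k' rfl
      exact hky ((hk.trans hy.symm) k')
    obtain ⟨z, hz1, hz2⟩ : ∃ z, (side T f z ↔ side T f v) ∧
        ∀ s, s ≠ f → (side T s z ↔ side T s (T.d0 f)) := by
      by_cases hfv : side T f v
      · exact ⟨T.d1 f, by simp [side1 T f, hfv], fun s hs' => side_ne T hs'.symm⟩
      · exact ⟨T.d0 f, by simp [side0 T f, hfv], fun s _ => Iff.rfl⟩
    have hzsim : Sim T e z u := by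
      intro k'
      have hne' : k' • e ≠ f := hfO k'
      rw [hz2 _ hne']
      have q1 := quad T hne' y
      have q2 := quad T hne' k
      have h3 := hk k'
      have h4 := hy k'
      clear * - q1 q2 h3 h4 hky
      tauto
    have hlt : (sep T v z).ncard < (sep T v y).ncard := by
      apply Set.ncard_lt_ncard _ (fin_sep T v y)
      refine ⟨?_, ?_⟩
      · intro s hsz
        have hsf : s ≠ f := by
          rintro rfl
          exact hsz hz1.symm
        simp only [sep, Set.mem_setOf_eq] at hsz hfs ⊢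
        have q1 := quad T hsf v
        have q2 := quad T hsf y
        have h3 := hz2 s hsf
        clear * - q1 q2 h3 hsz hfs
        tauto
      · intro hsub
        have := hsub hfs
        exact this hz1.symm
    have := hymin z hzsim
    omega
  have hgy : Sim T e (g • y) u := ((hy.smul g).trans (hu g))
  have hgy' : Sim T e (g⁻¹ • y) u := ((hy.smul g⁻¹).trans (hu g⁻¹))
  have hlt : (sep T y (g • y)).ncard < (sep T v (g • v)).ncard := by
    apply Set.ncard_lt_ncard _ (fin_sep T v (g • v))
    refine ⟨?_, ?_⟩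
    · intro f hfy
      by_contra hfv
      simp only [sep, Set.mem_setOf_eq, not_not] at hfy hfv
      by_cases h1 : f ∈ sep T v y
      · have := claimN f h1 (g • y) hgy
        tauto
      · have h2 : g⁻¹ • f ∈ sep T v y := by
          simp only [sep, Set.mem_setOf_eq, not_not] at h1 ⊢
          rw [← side_smul', ← side_smul']
          tauto
        have := claimN _ h2 (g⁻¹ • y) hgy'
        rw [side_smul, ← side_smul'] at this
        tauto
    · intro hsub
      have h1 : e ∈ sep T y (g • y) := hsub he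
      apply h1
      have := (hy.trans hgy.symm) 1
      rwa [one_smul] at this
  have := hmin y g hg1
  omega


end

end Pool.Agent.T4h64.DP
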