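import Pool.Agent.T2h30.IP.Stm
import Pool.Agent.T4h64.DP.Bs

set_option autoImplicit false

namespace Pool.Agent.T4h64.DP.Inf



/-- the two definitions of infinite cyclic groups -/
theorem infCyc_iff (G : Type) [Group G] : Pool.Agent.T2h30.IP.InfCyc G ↔ Pool.Agent.T4h64.DP.InfCyc G := by
  constructor
  · rintro ⟨e⟩
    refine ⟨e.symm (Multiplicative.ofAdd 1), fun n hn => ?_, fun g => ⟨(e g).toAdd, ?_⟩⟩
    · have h1 : (Multiplicative.ofAdd (1 : ℤ)) ^ n = 1 := by
        have h0 := congrArg (fun x => e x) hn
        simp only [map_zpow, map_one, e.apply_symm_apply] at h0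
        exact h0
      have h2 : Multiplicative.ofAdd (n • (1 : ℤ)) = Multiplicative.ofAdd (0 : ℤ) := by
        rw [ofAdd_zsmul]
        exact h1
      have h3 := Multiplicative.ofAdd.injective h2
      simpa using h3
    · apply e.injective
      rw [map_zpow, e.apply_symm_apply]
      apply Multiplicative.toAdd.injective
      simp
  · rintro ⟨t, h1, h2⟩
    refine ⟨(MulEquiv.ofBijective (zpowersHom G t) ⟨?_, ?_⟩).symm⟩
    · rw [injective_iff_map_eq_one]
      intro n hn
      rw [zpowersHom_apply] at hn
      have := h1 _ hn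
      exact Multiplicative.toAdd.injective this
    · intro g
      obtain ⟨n, hn⟩ := h2 g
      exact ⟨Multiplicative.ofAdd n, by rw [zpowersHom_apply]; exact hn⟩

end Pool.Agent.T4h64.DP.Inf
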