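import Pool.Agent.T4h64.DP.Kur
import Pool.Agent.Q32.DP.KSF

set_option autoImplicit false

/-!
# Uniqueness of free decompositions, with torsion (adapted from `Pool.Agent.Q32.DP.KSF`)
-/

namespace Pool.Agent.T4h64.DP.KSF

open Monoid Pool.Agent.H599R3.RH Pool.Agent.Q32.DP Pool.Agent.Q32.DP.KSF

/-- nontrivial, freely indecomposable, not infinite cyclic -/
def Good' (A : Type) [Group A] : Prop :=
  (∃ a : A, a ≠ 1) ∧ ¬ Splits A ∧ ¬ InfCyc A

/-- the theorem of Kurosh with the homomorphism to the factor -/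
theorem kur' {A C D : Type} [Group A] [Group C] [Group D] (hA : Good' A) (f : A →* Coprod C D)
    (hf : Function.Injective f) :
    (∃ (g : Coprod C D) (u : A →* C), ∀ x, f x = g * Coprod.inl (u x) * g⁻¹) ∨
    (∃ (g : Coprod C D) (u : A →* D), ∀ x, f x = g * Coprod.inr (u x) * g⁻¹) := by
  rcases kurosh' f hf hA.1 hA.2.1 hA.2.2 with ⟨g, hg⟩ | ⟨g, hg⟩
  · left
    refine ⟨g, ⟨⟨fun x => Coprod.fst (g⁻¹ * f x * g), by simp⟩, fun x y => ?_⟩, fun x => ?_⟩
    · change Coprod.fst (g⁻¹ * f (x * y) * g) =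
        Coprod.fst (g⁻¹ * f x * g) * Coprod.fst (g⁻¹ * f y * g)
      rw [← map_mul, map_mul f]
      congr 1
      group
    · obtain ⟨c, hc⟩ := hg x
      have h1 : Coprod.fst (g⁻¹ * f x * g) = c := by
        rw [hc, show g⁻¹ * (g * Coprod.inl c * g⁻¹) * g = Coprod.inl c by group,
          Coprod.fst_apply_inl]
      change f x = g * Coprod.inl (Coprod.fst (g⁻¹ * f x * g)) * g⁻¹
      rw [h1]
      exact hc
  · right
    refine ⟨g, ⟨⟨fun x => Coprod.snd (g⁻¹ * f x * g), by simp⟩, fun x y => ?_⟩, fun x => ?_⟩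
    · change Coprod.snd (g⁻¹ * f (x * y) * g) =
        Coprod.snd (g⁻¹ * f x * g) * Coprod.snd (g⁻¹ * f y * g)
      rw [← map_mul, map_mul f]
      congr 1
      group
    · obtain ⟨c, hc⟩ := hg x
      have h1 : Coprod.snd (g⁻¹ * f x * g) = c := by
        rw [hc, show g⁻¹ * (g * Coprod.inr c * g⁻¹) * g = Coprod.inr c by group,
          Coprod.snd_apply_inr]
      change f x = g * Coprod.inr (Coprod.snd (g⁻¹ * f x * g)) * g⁻¹
      rw [h1]
      exact hc


/-- the location of good subgroups in free products of finite families -/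
theorem locI' : ∀ (n : ℕ) (K : Fin n → Type) [∀ i, Group (K i)] (A : Type) [Group A], Good' A →
    ∀ f : A →* CoprodI K, Function.Injective f →
    ∃ (i : Fin n) (g : CoprodI K) (u : A →* K i), ∀ x, f x = g * CoprodI.of (u x) * g⁻¹ := by
  intro n
  induction n with
  | zero =>
    intro K _ A _ hA f hf
    exfalso
    obtain ⟨a, ha⟩ := hA.1
    apply ha
    apply hf
    have h1 : ∀ z : CoprodI K, z = 1 := by
      intro z
      induction z using CoprodI.induction_on with
      | one => rfl
      | of i x => exact i.elim0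
      | mul x y hx hy => rw [hx, hy, mul_one]
    rw [h1 (f a), h1 (f 1)]
  | succ n ih =>
    intro K _ A _ hA f hf
    have hfi : Function.Injective (fwd K) := fun x y hxy => by
      rw [← bwd_fwd K x, hxy, bwd_fwd]
    have hcf : Function.Injective ((fwd K).comp f) := fun x y hxy => hf (hfi hxy)
    rcases kur' hA ((fwd K).comp f) hcf with ⟨g, u, hu⟩ | ⟨g, u, hu⟩
    · refine ⟨0, bwd K g, u, fun x => ?_⟩
      have h1 : f x = bwd K (fwd K (f x)) := (bwd_fwd K _).symm
      have h2 : fwd K (f x) = g * Coprod.inl (u x) * g⁻¹ := hu x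
      rw [h1, h2, map_mul, map_mul, map_inv]
      congr 2
    · have hui : Function.Injective u := inj_of _ hcf g Coprod.inr u hu
      obtain ⟨i, g', u', hu'⟩ := ih (fun i : Fin n => K i.succ) A hA u hui
      refine ⟨i.succ, bwd K g * tl K g', u', fun x => ?_⟩
      have h1 : f x = bwd K (fwd K (f x)) := (bwd_fwd K _).symm
      have h2 : fwd K (f x) = g * Coprod.inr (u x) * g⁻¹ := hu x
      have h3 : bwd K (Coprod.inr (u x)) = tl K (u x) := by
        unfold bwd
        exact Coprod.lift_apply_inr _ _ _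
      have h4 : tl K (CoprodI.of (M := fun i : Fin n => K i.succ) (i := i) (u' x)) =
          CoprodI.of (M := K) (i := i.succ) (u' x) := by
        unfold tl
        exact CoprodI.lift_of _ _
      rw [h1, h2, map_mul, map_mul, map_inv, h3, hu' x, map_mul, map_mul, map_inv, h4]
      group

/-- good groups do not embed in free groups of finite rank -/
theorem nofree' (s : ℕ) (A : Type) [Group A] (hA : Good' A) (f : A →* FreeGroup (Fin s))
    (hf : Function.Injective f) : False := by
  obtain ⟨i, g, u, hu⟩ := locI' s (fun _ => FreeGroup Unit) A hA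
    ((freeGroupEquivCoprodI : FreeGroup (Fin s) ≃* _).toMonoidHom.comp f)
    ((freeGroupEquivCoprodI : FreeGroup (Fin s) ≃* _).injective.comp hf)
  have hui : Function.Injective u := inj_of _
    ((freeGroupEquivCoprodI : FreeGroup (Fin s) ≃* _).injective.comp hf) g _ u hu
  have hc : IsCyclic (FreeGroup Unit) := by
    refine ⟨⟨FreeGroup.of (), fun x => ?_⟩⟩
    change ∃ n : ℤ, (FreeGroup.of () : FreeGroup Unit) ^ n = x
    induction x using FreeGroup.induction_on with
    | C1 => exact ⟨0, by simp⟩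
    | of x => exact ⟨1, by simp⟩
    | inv_of x _ => exact ⟨-1, by simp⟩
    | mul x y hx hy =>
      obtain ⟨a, ha⟩ := hx
      obtain ⟨b, hb⟩ := hy
      exact ⟨a + b, by rw [zpow_add, ha, hb]⟩
  have hcA : IsCyclic A := isCyclic_of_injective u hui
  obtain ⟨t, ht⟩ := IsCyclic.exists_generator (α := A)
  have hgen : ∀ g : A, ∃ n : ℤ, t ^ n = g := fun g => (Subgroup.mem_zpowers_iff).1 (ht g)
  have ht1 : t ≠ 1 := by
    rintro rfl
    obtain ⟨a, ha⟩ := hA.1
    apply ha
    obtain ⟨n, rfl⟩ := hgen a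
    exact one_zpow n
  refine hA.2.2 ⟨t, fun n hn => ?_, hgen⟩
  by_contra hn0
  apply ht1
  apply hf
  have h5 : f t ^ n.natAbs = 1 := by
    rw [← map_pow, pow_natAbs_eq_one.2 hn, map_one]
  rw [map_one]
  exact (pow_eq_one_iff_left (Int.natAbs_ne_zero.2 hn0)).1 h5

section
variable (s : ℕ) {m : ℕ} (K : Fin m → Type) [∀ i, Group (K i)]

/-- location of good subgroups of the big group -/
theorem loc' (A : Type) [Group A] (hA : Good' A) (f : A →* GG s K) (hf : Function.Injective f) :
    ∃ (i : Fin m) (g : GG s K) (u : A →* K i), ∀ x, f x = g * kap s K i (u x) * g⁻¹ := by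
  rcases kur' hA f hf with ⟨g, u, hu⟩ | ⟨g, u, hu⟩
  · have hui : Function.Injective u := inj_of f hf g Coprod.inl u hu
    obtain ⟨i, g', u', hu'⟩ := locI' m K A hA u hui
    refine ⟨i, g * Coprod.inl g', u', fun x => ?_⟩
    rw [hu x, hu' x, map_mul, map_mul, map_inv]
    unfold kap
    rw [MonoidHom.comp_apply]
    group
  · exact (nofree' s A hA u (inj_of f hf g Coprod.inr u hu)).elim

end

/-- KSF -/
theorem t (s s' m n : ℕ) (K : Fin m → Type) (L : Fin n → Type)
    [∀ i, Group (K i)] [∀ j, Group (L j)]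
    (hK : ∀ i, FreelyIndec (K i) ∧ ¬ InfCyc (K i))
    (hL : ∀ j, FreelyIndec (L j) ∧ ¬ InfCyc (L j))
    (he : Nonempty (Monoid.Coprod (Monoid.CoprodI K) (FreeGroup (Fin s)) ≃*
      Monoid.Coprod (Monoid.CoprodI L) (FreeGroup (Fin s')))) :
    s = s' ∧ ∃ σ : Fin m ≃ Fin n, ∀ i, Nonempty (K i ≃* L (σ i)) := by
  obtain ⟨e⟩ := he
  have good : ∀ (A : Type) [Group A], FreelyIndec A ∧ ¬ InfCyc A → Good' A := by
    intro A _ h
    refine ⟨h.1.1, ?_, h.2⟩
    rintro ⟨B, C, iB, iC, hB, hC, hi⟩
    rcases h.1.2 B C hi with h1 | h1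
    · obtain ⟨b, hb⟩ := exists_ne (1 : B)
      exact hb (h1 b)
    · obtain ⟨b, hb⟩ := exists_ne (1 : C)
      exact hb (h1 b)
  have gK : ∀ i, Good' (K i) := fun i => good (K i) (hK i)
  have gL : ∀ j, Good' (L j) := fun j => good (L j) (hL j)
  have h1 : ∀ i, ∃ (j : Fin n) (g : GG s' L) (u : K i →* L j),
      ∀ x, e (kap s K i x) = g * kap s' L j (u x) * g⁻¹ := fun i =>
    loc' s' L (K i) (gK i) (e.toMonoidHom.comp (kap s K i)) (e.injective.comp (kap_inj s K i))
  have h2 : ∀ j, ∃ (i : Fin m) (g : GG s K) (u : L j →* K i),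
      ∀ x, e.symm (kap s' L j x) = g * kap s K i (u x) * g⁻¹ := fun j =>
    loc' s K (L j) (gL j) (e.symm.toMonoidHom.comp (kap s' L j))
      (e.symm.injective.comp (kap_inj s' L j))
  choose σ g u hu using h1
  choose τ h v hv using h2
  have c1 : ∀ i, τ (σ i) = i ∧ Function.Surjective ((v (σ i)).comp (u i)) := by
    intro i
    refine key s K i (τ (σ i)) (e.symm (g i) * h (σ i)) ((v (σ i)).comp (u i)) (fun x => ?_)
      (gK i).1
    have h3 : kap s K i x = e.symm (e (kap s K i x)) := (e.symm_apply_apply _).symm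
    rw [h3, hu, map_mul, map_mul, map_inv, hv, MonoidHom.comp_apply]
    group
  have c2 : ∀ j, σ (τ j) = j ∧ Function.Surjective ((u (τ j)).comp (v j)) := by
    intro j
    refine key s' L j (σ (τ j)) (e (h j) * g (τ j)) ((u (τ j)).comp (v j)) (fun x => ?_)
      (gL j).1
    have h3 : kap s' L j x = e (e.symm (kap s' L j x)) := (e.apply_symm_apply _).symm
    rw [h3, hv, map_mul, map_mul, map_inv, hu, MonoidHom.comp_apply]
    group
  have ui : ∀ i, Function.Injective (u i) := fun i =>
    inj_of (e.toMonoidHom.comp (kap s K i)) (e.injective.comp (kap_inj s K i)) (g i)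
      (kap s' L (σ i)) (u i) (hu i)
  have vi : ∀ j, Function.Injective (v j) := fun j =>
    inj_of (e.symm.toMonoidHom.comp (kap s' L j)) (e.symm.injective.comp (kap_inj s' L j)) (h j)
      (kap s K (τ j)) (v j) (hv j)
  refine ⟨?_, ⟨⟨σ, τ, fun i => (c1 i).1, fun j => (c2 j).1⟩, fun i => ?_⟩⟩
  · -- the ranks
    let M := Multiplicative (ZMod 2)
    have E : {φ : GG s K →* M // ∀ i x, φ (kap s K i x) = 1} ≃
        {φ : GG s' L →* M // ∀ j x, φ (kap s' L j x) = 1} :=
      { toFun := fun φ => ⟨φ.1.comp e.symm.toMonoidHom, fun j x => by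
          change φ.1 (e.symm (kap s' L j x)) = 1
          rw [hv, map_mul, map_mul, φ.2, mul_one, ← map_mul, mul_inv_cancel, map_one]⟩
        invFun := fun φ => ⟨φ.1.comp e.toMonoidHom, fun j x => by
          change φ.1 (e (kap s K j x)) = 1
          rw [hu, map_mul, map_mul, φ.2, mul_one, ← map_mul, mul_inv_cancel, map_one]⟩
        left_inv := fun φ => by
          apply Subtype.ext
          refine MonoidHom.ext fun x => ?_
          change φ.1 (e.symm (e x)) = φ.1 x
          rw [e.symm_apply_apply]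
        right_inv := fun φ => by
          apply Subtype.ext
          refine MonoidHom.ext fun x => ?_
          change φ.1 (e (e.symm x)) = φ.1 x
          rw [e.apply_symm_apply] }
    have E2 : (Fin s → M) ≃ (Fin s' → M) := (homs s K M).symm.trans (E.trans (homs s' L M))
    have h3 := Fintype.card_congr E2
    have h4 : Fintype.card M = 2 := ZMod.card 2
    rw [Fintype.card_fun, Fintype.card_fun, Fintype.card_fin, Fintype.card_fin, h4] at h3
    exact Nat.pow_right_injective le_rfl h3
  · refine ⟨MulEquiv.ofBijective (u i) ⟨ui i, fun y => ?_⟩⟩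
    obtain ⟨x, hx⟩ := (c1 i).2 (v (σ i) y)
    exact ⟨x, vi (σ i) hx⟩

end Pool.Agent.T4h64.DP.KSF
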